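import Mathlib

namespace Pool.Agent.H.MP_035d7c_an

open Set Metric MeasureTheory Filter Topology
open scoped ENNReal NNReal

/-- sign sequences; `ε n` is the sign carrying the index `n + 1` -/
def Om : Type := ℕ → Bool

/-- the sign as a real number -/
def sg (b : Bool) : ℝ := if b then 1 else -1

open Classical in
/-- two to the minus first index (counted from one) where the sequences differ -/
noncomputable def rho (x y : Om) : ℝ :=
  if x = y then 0 else (1 / 2) ^ (sInf {n | x n ≠ y n} + 1)

theorem rho_nonneg (x y : Om) : 0 ≤ rho x y := by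
  unfold rho
  split_ifs <;> positivity

theorem agree (x y : Om) : ∀ i < sInf {n | x n ≠ y n}, x i = y i := fun i hi => by
  simpa using Nat.notMem_of_lt_sInf hi

theorem differ {x y : Om} (h : x ≠ y) : x (sInf {n | x n ≠ y n}) ≠ y (sInf {n | x n ≠ y n}) :=
  Nat.sInf_mem (s := {n | x n ≠ y n}) (by
    by_contra h1
    exact h (funext fun n => by_contra fun h2 => h1 ⟨n, h2⟩))

theorem rho_le {x y : Om} {m : ℕ} (h : ∀ i < m, x i = y i) : rho x y ≤ (1 / 2) ^ (m + 1) := by
  unfold rho
  split_ifs with h1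
  · positivity
  · refine pow_le_pow_of_le_one (by norm_num) (by norm_num) (Nat.succ_le_succ ?_)
    by_contra h2
    exact differ h1 (h _ (not_le.1 h2))

theorem le_rho {x y : Om} {m : ℕ} (h : x m ≠ y m) : (1 / 2) ^ (m + 1) ≤ rho x y := by
  have h1 : x ≠ y := fun h1 => h (by rw [h1])
  unfold rho
  rw [if_neg h1]
  exact pow_le_pow_of_le_one (by norm_num) (by norm_num) (Nat.succ_le_succ (Nat.sInf_le h))

/-- the metric of the problem -/
noncomputable instance : MetricSpace Om where
  dist := rho
  dist_self x := by simp [rho]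
  dist_comm x y := by
    have h : {n | x n ≠ y n} = {n | y n ≠ x n} := by simp only [ne_comm]
    by_cases h1 : x = y
    · rw [h1]
    · simp only [rho, if_neg h1, if_neg (Ne.symm h1), h]
  dist_triangle x y z := by
    have h1 := rho_nonneg x y
    have h2 := rho_nonneg y z
    by_cases h : x = z
    · simp only [rho, if_pos h] at *
      positivity
    · have h3 := differ h
      have h4 : rho x z = (1 / 2) ^ (sInf {n | x n ≠ z n} + 1) := by simp only [rho, if_neg h]
      by_cases h5 : x (sInf {n | x n ≠ z n}) = y (sInf {n | x n ≠ z n})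
      · have := le_rho (x := y) (y := z) (h5 ▸ h3)
        linarith
      · have := le_rho h5
        linarith
  eq_of_dist_eq_zero {x y} h := by
    by_contra h1
    simp only [rho, if_neg h1] at h
    exact absurd h (by positivity)

theorem dist_eq (x y : Om) : dist x y = rho x y := rfl

/-- the sign sequences for which the partial sums of the signed series converge to `L` -/
def lev {d : ℕ} (a : ℕ → Fin d → ℝ) (L : Fin d → ℝ) : Set Om :=
  {ε | Tendsto (fun N => ∑ n ∈ Finset.range N, sg (ε n) • a n) atTop (𝓝 L)}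

theorem dimH_le_of_cover (E : Set Om) (s : ℝ≥0) (P Q : ℕ → ℕ) (hQ : Tendsto Q atTop atTop)
    (h : ∀ᶠ j in atTop, (P j : ℝ) ≤ s * Q j ∧
      ∀ x ∈ E, ∀ y ∈ E, (∀ i < P j, x i = y i) → ∀ i < Q j, x i = y i) : dimH E ≤ s := by
  borelize Om
  have hd : ∀ᶠ j in atTop, ∀ u : Fin (P j) → Bool,
      ediam {x ∈ E | ∀ i : Fin (P j), x i = u i} ≤ ENNReal.ofReal ((1 / 2) ^ (Q j + 1)) := by
    filter_upwards [h] with j hj u
    exact ediam_le_of_forall_dist_le fun x hx y hy => rho_le (hj.2 x hx.1 y hy.1 fun i hi =>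
      (hx.2 ⟨i, hi⟩).trans (hy.2 ⟨i, hi⟩).symm)
  have key := Measure.hausdorffMeasure_le_liminf_sum s E (l := atTop)
    (fun j : ℕ => ENNReal.ofReal ((1 / 2) ^ (Q j + 1)))
    (by simpa using ENNReal.tendsto_ofReal ((tendsto_pow_atTop_nhds_zero_of_lt_one
      (r := (1 / 2 : ℝ)) (by norm_num) (by norm_num)).comp
        ((tendsto_add_atTop_nat 1).comp hQ)))
    (fun j (u : Fin (P j) → Bool) => {x ∈ E | ∀ i : Fin (P j), x i = u i}) hd
    (Eventually.of_forall fun j x hx => mem_iUnion.2 ⟨fun i => x i, hx, fun _ => rfl⟩)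
  have h4 : μH[s] E ≤ 1 := by
    refine key.trans (liminf_le_of_frequently_le' (Eventually.frequently ?_))
    filter_upwards [h, hd] with j hj hdj
    calc _ ≤ ∑ _u : Fin (P j) → Bool, ENNReal.ofReal ((1 / 2) ^ (P j)) := by
          refine Finset.sum_le_sum fun u _ => (ENNReal.rpow_le_rpow (hdj u) s.coe_nonneg).trans ?_
          rw [ENNReal.ofReal_rpow_of_nonneg (by positivity) s.coe_nonneg, ← Real.rpow_natCast,
            ← Real.rpow_mul (by norm_num), ← Real.rpow_natCast]
          refine ENNReal.ofReal_le_ofReal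
            (Real.rpow_le_rpow_of_exponent_ge (by norm_num) (by norm_num) ?_)
          have := s.coe_nonneg
          have h5 := hj.1
          push_cast
          nlinarith
      _ ≤ 1 := by
          rw [Finset.sum_const, Finset.card_univ, nsmul_eq_mul,
            ← ENNReal.ofReal_natCast, ← ENNReal.ofReal_mul (by positivity), ← ENNReal.ofReal_one]
          refine ENNReal.ofReal_le_ofReal (le_of_eq ?_)
          simp
  exact dimH_le_of_hausdorffMeasure_ne_top (h4.trans_lt ENNReal.one_lt_top).ne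

theorem dimH_le_one (E : Set Om) : dimH E ≤ 1 := by
  simpa using dimH_le_of_cover E 1 id id tendsto_id
    (Eventually.of_forall fun j => ⟨by simp, fun _ _ _ _ h => h⟩)

theorem le_dimH_of_code (E : Set Om) (s : ℝ≥0) (hs : 0 < s) (q M : ℕ) (hq : 0 < q) (hM : 1 < M)
    (hsM : (2 : ℝ) ^ (s * q : ℝ) ≤ M) (code : ℕ → Om → Fin M)
    (hc : ∀ j x y, (∀ i < q * (j + 1), x i = y i) → code j x = code j y)
    (hE : ∀ w : ℕ → Fin M, ∃ x ∈ E, ∀ j, code j x = w j) : (s : ℝ≥0∞) ≤ dimH E := by
  set f : Om → ℝ := fun x => Real.ofDigits fun j => code j x with hf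
  have hH : HolderWith (Real.toNNReal (2 ^ (s * q : ℝ))) s f := by
    intro x y
    by_cases h : x = y
    · simp [h]
    rw [edist_dist, edist_dist, ENNReal.ofReal_rpow_of_nonneg dist_nonneg s.coe_nonneg,
      ← ENNReal.ofReal_coe_nnreal, ← ENNReal.ofReal_mul (NNReal.coe_nonneg _),
      Real.coe_toNNReal _ (by positivity)]
    refine ENNReal.ofReal_le_ofReal ?_
    set m := sInf {n | x n ≠ y n} with hm
    have h1 : dist x y = (1 / 2) ^ (m + 1) := by simp only [dist_eq, rho, if_neg h, hm]
    have h2 := Real.abs_ofDigits_sub_ofDigits_le (x := fun j => code j x) (y := fun j => code j y)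
      (n := m / q) fun j hj => hc j x y fun i hi => agree x y i (by
        have h5 : q * (j + 1) ≤ q * (m / q) := Nat.mul_le_mul_left q hj
        exact hi.trans_le (h5.trans (Nat.mul_div_le m q)))
    rw [Real.dist_eq, h1]
    refine h2.trans ?_
    have h3 : ((m + 1 : ℕ) : ℝ) ≤ q * (m / q : ℕ) + q := by
      have := Nat.lt_mul_div_succ m hq
      exact_mod_cast (by nlinarith : m + 1 ≤ q * (m / q) + q)
    calc _ ≤ (((2 : ℝ) ^ (s * q : ℝ)) ^ (m / q))⁻¹ := by gcongr
      _ = 2 ^ (-(s * q * (m / q : ℕ)) : ℝ) := by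
          rw [← Real.rpow_natCast, ← Real.rpow_mul (by norm_num), Real.rpow_neg (by norm_num)]
      _ ≤ 2 ^ (s * q + -((m + 1 : ℕ) * s) : ℝ) := by
          refine Real.rpow_le_rpow_of_exponent_le (by norm_num) ?_
          have := s.coe_nonneg
          nlinarith
      _ = _ := by
          rw [Real.rpow_add (by norm_num), Real.rpow_neg (by norm_num),
            Real.rpow_mul (by norm_num) ((m + 1 : ℕ) : ℝ), Real.rpow_natCast, one_div, inv_pow, Real.inv_rpow (by positivity)]
  have h1 := hH.dimH_image_le hs E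
  have h2 : Icc (0 : ℝ) 1 ⊆ f '' E := fun t ht => by
    obtain ⟨w, -, hw⟩ := Real.ofDigits_SurjOn hM ht
    obtain ⟨x, hx, hxw⟩ := hE w
    exact ⟨x, hx, by simp only [hf, hxw, hw]⟩
  have h3 : dimH (Icc (0 : ℝ) 1) = 1 := by
    simpa using Real.dimH_of_nonempty_interior (s := Icc (0 : ℝ) 1) (by simp)
  have h4 := (h3 ▸ dimH_mono h2).trans h1
  rwa [ENNReal.le_div_iff_mul_le (by simp [hs.ne']) (by simp), one_mul] at h4

end Pool.Agent.H.MP_035d7c_an
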